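import Pool.Agent.H83.UE.Targets

/-!
# Module BB: the direct image of `χ dz` tends to zero in `L²` after normalisation
-/

set_option autoImplicit false

open Polynomial MeasureTheory Filter Topology Set
open scoped OnePoint ComplexConjugate ComplexOrder Laplacian ENNReal
open Pool.Agent.H83.UE

namespace Pool.Agent.H35.UDA

/-! ### multisets -/

theorem ms_comb (R : Multiset ℂ) (f1 f2 g : ℂ → ℂ) (a b c : ℂ)
    (h : ∀ x ∈ R, a * f1 x + b * f2 x = c * g x) :
    a * (R.map f1).sum + b * (R.map f2).sum = c * (R.map g).sum := by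
  induction R using Multiset.induction_on with
  | empty => simp
  | cons x R ih =>
    simp only [Multiset.map_cons, Multiset.sum_cons]
    have h1 := h x (Multiset.mem_cons_self x R)
    have h2 := ih fun y hy => h y (Multiset.mem_cons_of_mem hy)
    linear_combination h1 + h2

theorem ms_norm (R : Multiset ℂ) (f : ℂ → ℂ) (g : ℂ → ℝ) (c : ℝ)
    (h : ∀ x ∈ R, ‖f x‖ ≤ c * g x) : ‖(R.map f).sum‖ ≤ c * (R.map g).sum := by
  induction R using Multiset.induction_on with
  | empty => simp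
  | cons x R ih =>
    simp only [Multiset.map_cons, Multiset.sum_cons]
    have h1 := h x (Multiset.mem_cons_self x R)
    have h2 := ih fun y hy => h y (Multiset.mem_cons_of_mem hy)
    have h3 := norm_add_le (f x) (R.map f).sum
    rw [mul_add]
    linarith

theorem ms_enorm (R : Multiset ℂ) (f : ℂ → ℂ) (g : ℂ → ℝ≥0∞)
    (h : ∀ x ∈ R, ‖f x‖ₑ ≤ g x) : ‖(R.map f).sum‖ₑ ≤ (R.map g).sum := by
  induction R using Multiset.induction_on with
  | empty => simp
  | cons x R ih =>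
    simp only [Multiset.map_cons, Multiset.sum_cons]
    exact (enorm_add_le _ _).trans (add_le_add (h x (Multiset.mem_cons_self x R))
      (ih fun y hy => h y (Multiset.mem_cons_of_mem hy)))

theorem ms_ofReal (R : Multiset ℂ) (g : ℂ → ℝ) (G : ℂ → ℝ≥0∞) (hg : ∀ x, 0 ≤ g x)
    (h : ∀ x ∈ R, ENNReal.ofReal (g x) ≤ G x) :
    0 ≤ (R.map g).sum ∧ ENNReal.ofReal (R.map g).sum ≤ (R.map G).sum := by
  induction R using Multiset.induction_on with
  | empty => simp
  | cons x R ih =>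
    simp only [Multiset.map_cons, Multiset.sum_cons]
    obtain ⟨h1, h2⟩ := ih fun y hy => h y (Multiset.mem_cons_of_mem hy)
    refine ⟨add_nonneg (hg x) h1, ?_⟩
    rw [ENNReal.ofReal_add (hg x) h1]
    exact add_le_add (h x (Multiset.mem_cons_self x R)) h2

/-! ### complex numbers -/

theorem lin_dz (M : ℂ →L[ℝ] ℂ) (a : ℂ) :
    M a - Complex.I * M (a * Complex.I) = a * (M 1 - Complex.I * M Complex.I) := by
  have h1 : ∀ ζ : ℂ, M ζ = (ζ.re : ℂ) * M 1 + (ζ.im : ℂ) * M Complex.I := by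
    intro ζ
    have h2 : ζ = ζ.re • (1 : ℂ) + ζ.im • Complex.I := by
      rw [Complex.real_smul, Complex.real_smul, mul_one]
      exact (Complex.re_add_im ζ).symm
    conv_lhs => rw [h2]
    rw [map_add, map_smul, map_smul, Complex.real_smul, Complex.real_smul]
  rw [h1 a, h1 (a * Complex.I)]
  have h3 : (a * Complex.I).re = -a.im := by simp
  have h4 : (a * Complex.I).im = a.re := by simp
  rw [h3, h4]
  have h5 : a = a.re + a.im * Complex.I := (Complex.re_add_im a).symm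
  push_cast
  linear_combination (-(M 1 - Complex.I * M Complex.I)) * h5 +
    (a.im * M Complex.I) * Complex.I_sq

theorem enorm_div_le (a b : ℂ) : ‖a / b‖ₑ ≤ ‖a‖ₑ / ‖b‖ₑ := by
  by_cases hb : b = 0
  · rw [hb, div_zero, enorm_zero]
    exact zero_le
  · rw [← ofReal_norm_eq_enorm, norm_div, ENNReal.ofReal_div_of_pos (norm_pos_iff.2 hb),
      ofReal_norm_eq_enorm, ofReal_norm_eq_enorm]

theorem mul_le_sq (a b : ℝ≥0∞) : a * b ≤ a ^ 2 + b ^ 2 := by
  rcases le_total a b with h | h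
  · calc a * b ≤ b * b := mul_le_mul_left h b
      _ = b ^ 2 := (sq b).symm
      _ ≤ _ := le_add_self
  · calc a * b ≤ a * a := mul_le_mul_right h a
      _ = a ^ 2 := (sq a).symm
      _ ≤ _ := le_self_add

theorem int_mul {f g : ℂ → ℂ} (hf : Measurable f) (hg : Measurable g)
    (hf2 : ∫⁻ z, ‖f z‖ₑ ^ 2 < ⊤) (hg2 : ∫⁻ z, ‖g z‖ₑ ^ 2 < ⊤) :
    Integrable (fun z => f z * g z) := by
  refine ⟨(hf.mul hg).aestronglyMeasurable, ?_⟩
  unfold HasFiniteIntegral
  calc ∫⁻ z, ‖f z * g z‖ₑ ≤ ∫⁻ z, (‖f z‖ₑ ^ 2 + ‖g z‖ₑ ^ 2) := by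
        refine lintegral_mono fun z => ?_
        simp only [enorm_mul]
        exact mul_le_sq _ _
    _ = (∫⁻ z, ‖f z‖ₑ ^ 2) + ∫⁻ z, ‖g z‖ₑ ^ 2 := lintegral_add_left (hf.enorm.pow_const 2) _
    _ < ⊤ := ENNReal.add_lt_top.2 ⟨hf2, hg2⟩

/-! ### fibres -/

section fib

variable {P Q : ℂ[X]} {D : ℕ}

theorem sub_ne (hD : 1 ≤ D) (hc : IsCoprime P Q) (hm : P.natDegree = D ∨ Q.natDegree = D)
    (z : ℂ) : P - C z * Q ≠ 0 := by
  intro h
  have hP : P = C z * Q := sub_eq_zero.1 h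
  have hu : IsUnit Q := by
    rw [hP] at hc
    exact isCoprime_self.1 hc.of_mul_left_right
  have hQ0 : Q.natDegree = 0 := natDegree_eq_zero_of_isUnit hu
  rcases hm with h1 | h1
  · have : P.natDegree ≤ 0 := by
      rw [hP]
      exact (natDegree_C_mul_le z Q).trans hQ0.le
    omega
  · omega

theorem q_ne (hD : 1 ≤ D) (hc : IsCoprime P Q) (hm : P.natDegree = D ∨ Q.natDegree = D) :
    Q ≠ 0 := by
  intro h
  rw [h] at hc hm
  have hu : IsUnit P := isCoprime_zero_right.1 hc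
  have hP0 : P.natDegree = 0 := natDegree_eq_zero_of_isUnit hu
  rcases hm with h1 | h1
  · omega
  · rw [natDegree_zero] at h1
    omega

theorem root_val (hc : IsCoprime P Q) {z x : ℂ} (hx : x ∈ (P - C z * Q).roots) :
    Q.eval x ≠ 0 ∧ P.eval x / Q.eval x = z := by
  have h1 : P.eval x - z * Q.eval x = 0 := by
    have h := (mem_roots'.1 hx).2
    rw [IsRoot.def, eval_sub, eval_mul, eval_C] at h
    exact h
  have h2 : Q.eval x ≠ 0 := by
    intro h0
    rw [h0, mul_zero, sub_zero] at h1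
    obtain ⟨a, b, hab⟩ := hc
    have h3 := congrArg (eval x) hab
    rw [eval_add, eval_mul, eval_mul, h0, h1, mul_zero, mul_zero, add_zero, eval_one] at h3
    exact zero_ne_one h3
  refine ⟨h2, ?_⟩
  rw [div_eq_iff h2]
  linear_combination h1

theorem meas_h : Measurable (fun y : ℂ => P.eval y / Q.eval y) :=
  P.continuous.measurable.div Q.continuous.measurable

theorem area2 (h6 : T_ARE) (hD : 1 ≤ D) (hc : IsCoprime P Q) (hP : P.natDegree ≤ D)
    (hQ : Q.natDegree ≤ D) (hm : P.natDegree = D ∨ Q.natDegree = D) (S : ℂ → ℝ≥0∞)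
    (hS : Measurable S) :
    ∫⁻ x, (‖deriv (fun y => P.eval y / Q.eval y) x‖ₑ * S (P.eval x / Q.eval x)) ^ 2 ≤
      D * ∫⁻ z, S z ^ 2 := by
  have h1 := h6 P Q hc (by rcases hm with h | h <;> [left; right] <;> omega)
    (fun x => S (P.eval x / Q.eval x) ^ 2) ((hS.comp meas_h).pow_const 2)
  have e1 : ∫⁻ x, (‖deriv (fun y => P.eval y / Q.eval y) x‖ₑ * S (P.eval x / Q.eval x)) ^ 2 =
      ∫⁻ x, S (P.eval x / Q.eval x) ^ 2 * ‖deriv (fun y => P.eval y / Q.eval y) x‖ₑ ^ 2 := by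
    refine lintegral_congr fun x => ?_
    rw [mul_pow, mul_comm]
  rw [e1, ← h1, ← lintegral_const_mul _ (hS.pow_const 2)]
  refine lintegral_mono fun z => ?_
  have e2 : ∑ x ∈ (P - C z * Q).roots.toFinset, S (P.eval x / Q.eval x) ^ 2 =
      ∑ x ∈ (P - C z * Q).roots.toFinset, S z ^ 2 := by
    refine Finset.sum_congr rfl fun x hx => ?_
    rw [(root_val hc (Multiset.mem_toFinset.1 hx)).2]
  simp only [e2, Finset.sum_const, nsmul_eq_mul]
  refine mul_le_mul_left ?_ _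
  have h3 : (P - C z * Q).roots.toFinset.card ≤ D :=
    (Multiset.toFinset_card_le _).trans ((card_roots' _).trans
      ((natDegree_sub_le_of_le hP ((natDegree_C_mul_le _ _).trans hQ)).trans (max_self D).le))
  exact_mod_cast h3

end fib

open Classical in
theorem core (h5 : T_SIM) (h6 : T_ARE) (h7 : T_MEA) (h8 : T_CON) (h9 : T_INT) (h10 : T_DV)
    (h11 : T_IBP) {D : ℕ} {P Q : ℂ[X]} (hD : 1 ≤ D) (hc : IsCoprime P Q) (hP : P.natDegree ≤ D)
    (hQ : Q.natDegree ≤ D) (hm : P.natDegree = D ∨ Q.natDegree = D) (χ : ℂ → ℂ)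
    (hχ : ContDiff ℝ 2 χ) (hχc : HasCompactSupport χ) (U : ℂ → ℂ) (hU1 : ContDiff ℝ 1 U)
    (hUχ : ∀ z, dz U z = χ z) (hUL : ∫⁻ z, ‖fderiv ℝ U z‖ₑ ^ 2 < ⊤) (c : ℂ) (ε : ℝ)
    (hε : 0 ≤ ε) (hv : ∀ z, ‖((P - C z * Q).roots.map U).sum - c‖ ≤ ε) :
    ∫⁻ z, ‖((P - C z * Q).roots.map fun x =>
      χ x / deriv (fun y => P.eval y / Q.eval y) x).sum‖ₑ ^ 2 ≤
      ENNReal.ofReal (ε * ∫ z, ‖dzb χ z‖) := by
  have hdeg : 0 < P.natDegree ∨ 0 < Q.natDegree := by
    rcases hm with h | h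
    · left
      omega
    · right
      omega
  obtain ⟨h, hh⟩ : ∃ h : ℂ → ℂ, h = fun y => P.eval y / Q.eval y := ⟨_, rfl⟩
  have hhx : ∀ x, P.eval x / Q.eval x = h x := fun x => by rw [hh]
  have hmh : Measurable h := by
    rw [hh]
    exact meas_h
  have hmd : Measurable (deriv h) := measurable_deriv h
  rw [← hh]
  have hA2 : ∀ S : ℂ → ℝ≥0∞, Measurable S →
      ∫⁻ x, (‖deriv h x‖ₑ * S (h x)) ^ 2 ≤ D * ∫⁻ z, S z ^ 2 := by
    intro S hS
    have := area2 h6 hD hc hP hQ hm S hS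
    rw [← hh] at this
    simp only [hhx] at this
    exact this
  have h8' := h8 D P Q hD hc hP hQ hm
  have h9' := h9 D P Q hD hc hP hQ hm
  have h10' := h10 D P Q hD hc hP hQ hm
  obtain ⟨E₀, hE₀⟩ := h5 D P Q hD hc hP hQ hm
  rw [← hh] at h8' h9' h10' hE₀
  obtain ⟨v, hvd⟩ : ∃ v : ℂ → ℂ, v = fun z => ((P - C z * Q).roots.map U).sum := ⟨_, rfl⟩
  obtain ⟨b, hbd⟩ : ∃ b : ℂ → ℂ, b = fun z => ((P - C z * Q).roots.map fun x =>
    χ x / deriv h x).sum := ⟨_, rfl⟩
  have hvm : Measurable v := by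
    rw [hvd]
    exact (h7 P Q hc hdeg).2 U hU1.continuous.measurable
  have hbm : Measurable b := by
    rw [hbd]
    exact (h7 P Q hc hdeg).2 (fun x => χ x / deriv h x) (hχ.continuous.measurable.div hmd)
  -- the function
  obtain ⟨V, hVd⟩ : ∃ V : ℂ → ℂ, V = fun x => conj (if Q.eval x = 0 then c else v (h x)) :=
    ⟨_, rfl⟩
  have hVm : Measurable V := by
    rw [hVd]
    refine Complex.continuous_conj.measurable.comp (Measurable.ite ?_ measurable_const
      (hvm.comp hmh))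
    exact measurableSet_eq_fun Q.continuous.measurable measurable_const
  have hVc : ∀ x, ‖V x - conj c‖ ≤ ε := by
    intro x
    rw [hVd]
    simp only
    rw [← map_sub, RCLike.norm_conj]
    by_cases hx : Q.eval x = 0
    · rw [if_pos hx, sub_self, norm_zero]
      exact hε
    · rw [if_neg hx, hvd]
      exact hv _
  have hVB : ∀ x, ‖V x‖ ≤ ‖c‖ + ε := by
    intro x
    have e1 : V x = conj c + (V x - conj c) := by ring
    rw [e1]
    refine (norm_add_le _ _).trans ?_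
    rw [RCLike.norm_conj]
    linarith [hVc x]
  -- the exceptional points
  obtain ⟨EX, hEX⟩ : ∃ EX : Finset ℂ, EX = Q.roots.toFinset ∪
    E₀.biUnion (fun z => (P - C z * Q).roots.toFinset) := ⟨_, rfl⟩
  have hroot : ∀ x, Q.eval x ≠ 0 → x ∈ (P - C (h x) * Q).roots := by
    intro x hx
    rw [mem_roots (sub_ne hD hc hm _), IsRoot.def, eval_sub, eval_mul, eval_C, ← hhx,
      div_mul_cancel₀ _ hx, sub_self]
  have hEx : ∀ x, x ∉ EX → Q.eval x ≠ 0 ∧ h x ∉ E₀ := by
    intro x hx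
    rw [hEX, Finset.mem_union, not_or] at hx
    have h1 : Q.eval x ≠ 0 := by
      intro h0
      apply hx.1
      rw [Multiset.mem_toFinset, mem_roots (q_ne hD hc hm)]
      exact h0
    refine ⟨h1, fun h2 => hx.2 ?_⟩
    rw [Finset.mem_biUnion]
    exact ⟨h x, h2, Multiset.mem_toFinset.2 (hroot x h1)⟩
  have hae : ∀ᵐ x : ℂ, x ∉ EX := by
    have := (EX.finite_toSet).measure_zero (volume : Measure ℂ)
    rw [← compl_mem_ae_iff] at this
    exact this
  have hae0 : ∀ᵐ x : ℂ, x ∉ E₀ := by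
    have := (E₀.finite_toSet).measure_zero (volume : Measure ℂ)
    rw [← compl_mem_ae_iff] at this
    exact this
  have hder : ∀ x, x ∉ EX → ∃ M : ℂ →L[ℝ] ℂ, HasFDerivAt V M x ∧
      ∀ ζ, M ζ = conj (((P - C (h x) * Q).roots.map fun x' =>
        fderiv ℝ U x' (ζ * deriv h x / deriv h x')).sum) := by
    intro x hx
    obtain ⟨hQx, hhE⟩ := hEx x hx
    obtain ⟨s1, s2, s3⟩ := hE₀ (h x) hhE
    obtain ⟨L, hL, hLz⟩ := h10' (h x) s1 s2 s3 U hU1
    have hd1 : HasDerivAt h (deriv h x) x := by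
      have : DifferentiableAt ℂ h x := by
        rw [hh]
        exact P.differentiableAt.div Q.differentiableAt hQx
      exact this.hasDerivAt
    have hd2 := (hd1.hasFDerivAt).restrictScalars ℝ
    rw [← hvd] at hL
    have hd3 := hL.comp x hd2
    have hd4 := ((Complex.conjCLE : ℂ ≃L[ℝ] ℂ) : ℂ →L[ℝ] ℂ).hasFDerivAt.comp x hd3
    refine ⟨_, hd4.congr_of_eventuallyEq ?_, fun ζ => ?_⟩
    · have h1 : ∀ᶠ y in 𝓝 x, Q.eval y ≠ 0 := Q.continuous.continuousAt.eventually_ne hQx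
      filter_upwards [h1] with y hy
      rw [hVd]
      simp only [if_neg hy]
      rfl
    · simp only [ContinuousLinearMap.comp_apply]
      rw [hLz]
      simp only [ContinuousLinearMap.coe_restrictScalars', ContinuousLinearMap.smulRight_apply,
        ContinuousLinearMap.one_apply, smul_eq_mul]
      rfl
  have hdzb : ∀ x, x ∉ EX → (fderiv ℝ V x 1 + Complex.I * fderiv ℝ V x Complex.I) / 2 =
      conj (deriv h x * b (h x)) := by
    intro x hx
    obtain ⟨M, hM, hMz⟩ := hder x hx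
    rw [hM.fderiv, hMz, hMz]
    obtain ⟨hQx, hhE⟩ := hEx x hx
    obtain ⟨-, -, s3⟩ := hE₀ (h x) hhE
    have h1 := ms_comb (P - C (h x) * Q).roots
      (fun x' => fderiv ℝ U x' (1 * deriv h x / deriv h x'))
      (fun x' => fderiv ℝ U x' (Complex.I * deriv h x / deriv h x'))
      (fun x' => χ x' / deriv h x') 1 (-Complex.I) (2 * deriv h x) (by
        intro x' hx'
        have h2 := lin_dz (fderiv ℝ U x') (deriv h x / deriv h x')
        have h3 := hUχ x'
        unfold dz at h3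
        have h4 : fderiv ℝ U x' 1 - Complex.I * fderiv ℝ U x' Complex.I = 2 * χ x' := by
          rw [← h3]
          ring
        rw [h4] at h2
        have e1 : 1 * deriv h x / deriv h x' = deriv h x / deriv h x' := by rw [one_mul]
        have e2 : Complex.I * deriv h x / deriv h x' = deriv h x / deriv h x' * Complex.I := by
          ring
        rw [e1, e2]
        linear_combination h2)
    have h5 := congrArg (starRingEnd ℂ) h1
    simp only [map_add, map_mul, map_neg, Complex.conj_I, map_one, map_ofNat, neg_neg,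
      one_mul] at h5
    have h6 : conj (b (h x)) = conj (((P - C (h x) * Q).roots.map fun x' =>
        χ x' / deriv h x').sum) := by rw [hbd]
    rw [map_mul, h6]
    simp only [one_mul]
    rw [h5]
    ring
  -- the L² bound
  obtain ⟨S, hS⟩ : ∃ S : ℂ → ℝ≥0∞, S = fun z => ((P - C z * Q).roots.map fun x' =>
    ‖fderiv ℝ U x'‖ₑ / ‖deriv h x'‖ₑ).sum := ⟨_, rfl⟩
  have hSm : Measurable S := by
    rw [hS]
    exact (h7 P Q hc hdeg).1 (fun x' => ‖fderiv ℝ U x'‖ₑ / ‖deriv h x'‖ₑ)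
      ((measurable_fderiv ℝ U).enorm.div hmd.enorm)
  have hnor : ∀ x, x ∉ EX → ‖fderiv ℝ V x‖ₑ ≤ ‖deriv h x‖ₑ * S (h x) := by
    intro x hx
    obtain ⟨M, hM, hMz⟩ := hder x hx
    rw [hM.fderiv]
    obtain ⟨hQx, hhE⟩ := hEx x hx
    obtain ⟨-, -, s3⟩ := hE₀ (h x) hhE
    obtain ⟨r1, r2⟩ := ms_ofReal (P - C (h x) * Q).roots
      (fun x' => ‖fderiv ℝ U x'‖ / ‖deriv h x'‖)
      (fun x' => ‖fderiv ℝ U x'‖ₑ / ‖deriv h x'‖ₑ) (fun x' => by positivity) (by
        intro x' hx'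
        rw [ENNReal.ofReal_div_of_pos (norm_pos_iff.2 (s3 x' hx').2), ofReal_norm_eq_enorm,
          ofReal_norm_eq_enorm])
    have h1 : ‖M‖ ≤ ‖deriv h x‖ * ((P - C (h x) * Q).roots.map
        fun x' => ‖fderiv ℝ U x'‖ / ‖deriv h x'‖).sum := by
      refine ContinuousLinearMap.opNorm_le_bound _ (mul_nonneg (norm_nonneg _) r1) fun ζ => ?_
      rw [hMz, RCLike.norm_conj]
      have h2 := ms_norm (P - C (h x) * Q).roots
        (fun x' => fderiv ℝ U x' (ζ * deriv h x / deriv h x'))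
        (fun x' => ‖fderiv ℝ U x'‖ / ‖deriv h x'‖) (‖deriv h x‖ * ‖ζ‖) (by
          intro x' hx'
          refine ((fderiv ℝ U x').le_opNorm _).trans (le_of_eq ?_)
          rw [norm_div, norm_mul]
          ring)
      refine h2.trans (le_of_eq ?_)
      ring
    calc ‖M‖ₑ = ENNReal.ofReal ‖M‖ := (ofReal_norm_eq_enorm M).symm
      _ ≤ ENNReal.ofReal (‖deriv h x‖ * ((P - C (h x) * Q).roots.map
          fun x' => ‖fderiv ℝ U x'‖ / ‖deriv h x'‖).sum) := ENNReal.ofReal_le_ofReal h1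
      _ = ‖deriv h x‖ₑ * ENNReal.ofReal ((P - C (h x) * Q).roots.map
          fun x' => ‖fderiv ℝ U x'‖ / ‖deriv h x'‖).sum := by
          rw [ENNReal.ofReal_mul (norm_nonneg _), ofReal_norm_eq_enorm]
      _ ≤ _ := by
          rw [hS]
          exact mul_le_mul_right r2 _
  have hVL : ∫⁻ x, ‖fderiv ℝ V x‖ₑ ^ 2 < ⊤ := by
    calc ∫⁻ x, ‖fderiv ℝ V x‖ₑ ^ 2 ≤ ∫⁻ x, (‖deriv h x‖ₑ * S (h x)) ^ 2 := by
          refine lintegral_mono_ae ?_
          filter_upwards [hae] with x hx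
          exact pow_le_pow_left' (hnor x hx) 2
      _ ≤ D * ∫⁻ z, S z ^ 2 := hA2 S hSm
      _ ≤ D * (D * ∫⁻ x, ‖fderiv ℝ U x‖ₑ ^ 2) := by
          refine mul_le_mul_right ?_ _
          rw [hS]
          exact (h8' (fun x => ‖fderiv ℝ U x‖ₑ) (measurable_fderiv ℝ U).enorm).1
      _ < ⊤ := ENNReal.mul_lt_top (ENNReal.natCast_lt_top D)
          (ENNReal.mul_lt_top (ENNReal.natCast_lt_top D) hUL)
  have hVe : ∀ e : ℂ, ‖e‖ₑ = 1 → ∫⁻ x, ‖fderiv ℝ V x e‖ₑ ^ 2 < ⊤ := by
    intro e he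
    refine lt_of_le_of_lt (lintegral_mono fun x => ?_) hVL
    refine pow_le_pow_left' ?_ 2
    have h1 := (fderiv ℝ V x).le_opENorm e
    rw [he, mul_one] at h1
    exact h1
  have hχL : ∫⁻ x, ‖χ x‖ₑ ^ 2 < ⊤ := by
    have h1 : Integrable (fun x => ‖χ x‖ ^ 2) :=
      (hχ.continuous.norm.pow 2).integrable_of_hasCompactSupport (by
        refine hχc.norm.comp_left (g := fun t : ℝ => t ^ 2) ?_
        norm_num)
    have h2 := h1.2
    unfold HasFiniteIntegral at h2
    refine lt_of_le_of_lt (le_of_eq ?_) h2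
    refine lintegral_congr fun x => ?_
    rw [enorm_pow, enorm_norm]
  have hbL : ∫⁻ z, ‖b z‖ₑ ^ 2 < ⊤ := by
    calc ∫⁻ z, ‖b z‖ₑ ^ 2 ≤ ∫⁻ z, ((P - C z * Q).roots.map fun x =>
          ‖χ x‖ₑ / ‖deriv h x‖ₑ).sum ^ 2 := by
          refine lintegral_mono fun z => pow_le_pow_left' ?_ 2
          rw [hbd]
          exact ms_enorm _ _ _ fun x _ => enorm_div_le _ _
      _ ≤ D * ∫⁻ x, ‖χ x‖ₑ ^ 2 := (h8' (fun x => ‖χ x‖ₑ) hχ.continuous.measurable.enorm).1
      _ < ⊤ := ENNReal.mul_lt_top (ENNReal.natCast_lt_top D) hχL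
  -- integration by parts
  have hI1 : ‖(1 : ℂ)‖ₑ = 1 := by
    rw [← ofReal_norm_eq_enorm, norm_one, ENNReal.ofReal_one]
  have hII : ‖Complex.I‖ₑ = 1 := by
    rw [← ofReal_norm_eq_enorm, Complex.norm_I, ENNReal.ofReal_one]
  have hχ1 : ContDiff ℝ 1 χ := hχ.of_le (by norm_num)
  have hloc : ∀ R : ℝ, ∫⁻ z in Metric.ball (0 : ℂ) R, ‖fderiv ℝ V z‖ₑ < ⊤ := by
    intro R
    calc ∫⁻ z in Metric.ball (0 : ℂ) R, ‖fderiv ℝ V z‖ₑ ≤
        ∫⁻ z in Metric.ball (0 : ℂ) R, (1 + ‖fderiv ℝ V z‖ₑ ^ 2) := by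
          refine lintegral_mono fun z => ?_
          have h1 := mul_le_sq (1 : ℝ≥0∞) ‖fderiv ℝ V z‖ₑ
          rw [one_mul, one_pow] at h1
          exact h1
      _ = (∫⁻ z in Metric.ball (0 : ℂ) R, (1 : ℝ≥0∞)) +
          ∫⁻ z in Metric.ball (0 : ℂ) R, ‖fderiv ℝ V z‖ₑ ^ 2 :=
            lintegral_add_left measurable_const _
      _ < ⊤ := by
          refine ENNReal.add_lt_top.2 ⟨?_, lt_of_le_of_lt (setLIntegral_le_lintegral _ _) hVL⟩
          rw [setLIntegral_one]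
          exact measure_ball_lt_top
  have hibp := fun e : ℂ => h11 χ V EX (‖c‖ + ε) hχ1 hχc hVm hVB
    (fun z hz => by
      obtain ⟨M, hM, -⟩ := hder z hz
      exact hM.differentiableAt) hloc e
  have hibc := fun e : ℂ => h11 χ (fun _ => conj c) ∅ ‖c‖ hχ1 hχc measurable_const
    (fun z => by rw [RCLike.norm_conj]) (fun z _ => differentiableAt_const _)
    (fun R => by simp) e
  have hAi : ∀ e : ℂ, Integrable (fun z => fderiv ℝ χ z e) := fun e =>
    ((hχ1.continuous_fderiv one_ne_zero).clm_apply continuous_const).integrable_of_hasCompactSupport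
      ((hχc.fderiv ℝ).comp_left (g := fun L : ℂ →L[ℝ] ℂ => L e) rfl)
  have hAV : ∀ (e : ℂ) (W : ℂ → ℂ) (B : ℝ), Measurable W → (∀ z, ‖W z‖ ≤ B) →
      Integrable (fun z => fderiv ℝ χ z e * W z) := by
    intro e W B hW hWB
    refine ((hAi e).norm.mul_const B).mono'
      ((hAi e).aestronglyMeasurable.mul hW.aestronglyMeasurable) (ae_of_all _ fun z => ?_)
    rw [norm_mul]
    exact mul_le_mul_of_nonneg_left (hWB z) (norm_nonneg _)
  obtain ⟨H, hH⟩ : ∃ H : ℂ → ℂ, H = fun x => χ x * conj (deriv h x * b (h x)) := ⟨_, rfl⟩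
  have hHi : Integrable H := by
    rw [hH]
    refine int_mul (g := fun x => conj (deriv h x * b (h x))) hχ.continuous.measurable
      (Complex.continuous_conj.measurable.comp (hmd.mul (hbm.comp hmh))) hχL ?_
    have e1 : ∫⁻ x, ‖conj (deriv h x * b (h x))‖ₑ ^ 2 =
        ∫⁻ x, (‖deriv h x‖ₑ * ‖b (h x)‖ₑ) ^ 2 := by
      refine lintegral_congr fun x => ?_
      rw [← ofReal_norm_eq_enorm, RCLike.norm_conj, ofReal_norm_eq_enorm, enorm_mul]
    rw [e1]
    exact lt_of_le_of_lt (hA2 (fun z => ‖b z‖ₑ) hbm.enorm)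
      (ENNReal.mul_lt_top (ENNReal.natCast_lt_top D) hbL)
  have hI : ∀ e : ℂ, ‖e‖ₑ = 1 → Integrable (fun z => χ z * fderiv ℝ V z e) := fun e he =>
    int_mul hχ.continuous.measurable (measurable_fderiv_apply_const ℝ V e) hχL (hVe e he)
  have hHint : ∫ x, H x = -∫ x, dzb χ x * (V x - conj c) := by
    have e1 : ∫ x, H x = ∫ x, (χ x * fderiv ℝ V x 1 + Complex.I * (χ x *
        fderiv ℝ V x Complex.I)) / 2 := by
      refine integral_congr_ae ?_
      filter_upwards [hae] with x hx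
      rw [hH]
      simp only
      rw [← hdzb x hx]
      ring
    have e2 : ∫ x, (χ x * fderiv ℝ V x 1 + Complex.I * (χ x * fderiv ℝ V x Complex.I)) / 2 =
        ((∫ x, χ x * fderiv ℝ V x 1) + Complex.I * ∫ x, χ x * fderiv ℝ V x Complex.I) / 2 := by
      rw [integral_div, integral_add (hI 1 hI1) ((hI Complex.I hII).const_mul Complex.I),
        integral_const_mul]
    have e3 : ∀ e : ℂ, ∫ x, fderiv ℝ χ x e * conj c = 0 := by
      intro e
      have h1 := hibc e
      have h2 : (fun z : ℂ => χ z * fderiv ℝ (fun _ : ℂ => conj c) z e) = fun _ => 0 := by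
        funext z
        rw [fderiv_fun_const]
        simp
      rw [h2, integral_zero] at h1
      exact neg_eq_zero.1 h1.symm
    have e4 : ∀ e : ℂ, ∫ x, fderiv ℝ χ x e * (V x - conj c) = ∫ x, fderiv ℝ χ x e * V x := by
      intro e
      have h1 : (fun x => fderiv ℝ χ x e * (V x - conj c)) =
          fun x => fderiv ℝ χ x e * V x - fderiv ℝ χ x e * conj c := by
        funext x
        ring
      rw [h1, integral_sub (hAV e V _ hVm hVB) ((hAi e).mul_const _), e3, sub_zero]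
    have e5 : ∫ x, dzb χ x * (V x - conj c) =
        ((∫ x, fderiv ℝ χ x 1 * (V x - conj c)) + Complex.I *
          ∫ x, fderiv ℝ χ x Complex.I * (V x - conj c)) / 2 := by
      have h1 : (fun x => dzb χ x * (V x - conj c)) = fun x =>
          (fderiv ℝ χ x 1 * (V x - conj c) + Complex.I *
            (fderiv ℝ χ x Complex.I * (V x - conj c))) / 2 := by
        funext x
        unfold dzb
        ring
      rw [h1, integral_div, integral_add (hAV 1 _ ε (hVm.sub_const _) hVc)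
        ((hAV Complex.I _ ε (hVm.sub_const _) hVc).const_mul Complex.I), integral_const_mul]
    rw [e1, e2, e5, e4, e4, hibp 1, hibp Complex.I]
    ring
  -- the area formula
  obtain ⟨hΦi, hΦ⟩ := h9' H hHi
  have hΦe : ∀ z, z ∉ E₀ → ((P - C z * Q).roots.map fun x =>
      H x / (deriv h x * conj (deriv h x))).sum = b z * conj (b z) := by
    intro z hz
    obtain ⟨-, -, s3⟩ := hE₀ z hz
    have h1 : ((P - C z * Q).roots.map fun x => H x / (deriv h x * conj (deriv h x))) =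
        (P - C z * Q).roots.map fun x => χ x / deriv h x * conj (b z) := by
      refine Multiset.map_congr rfl fun x hx => ?_
      have h2 := (s3 x hx).2
      have h3 : h x = z := by
        rw [← hhx]
        exact (root_val hc hx).2
      have h4 : conj (deriv h x) ≠ 0 := by
        rw [Ne, map_eq_zero]
        exact h2
      rw [hH]
      simp only
      rw [h3, map_mul]
      field_simp
    rw [h1, Multiset.sum_map_mul_right, hbd]
  have hbb : ∀ z, b z * conj (b z) = ((‖b z‖ ^ 2 : ℝ) : ℂ) := by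
    intro z
    rw [Complex.mul_conj']
    push_cast
    rfl
  have hbi : Integrable (fun z => b z * conj (b z)) := by
    refine hΦi.congr ?_
    filter_upwards [hae0] with z hz
    exact hΦe z hz
  have hbI : ∫ z, b z * conj (b z) = ∫ x, H x := by
    rw [← hΦ]
    refine integral_congr_ae ?_
    filter_upwards [hae0] with z hz
    exact (hΦe z hz).symm
  have hbr : Integrable (fun z => ‖b z‖ ^ 2) := by
    refine hbi.norm.congr (ae_of_all _ fun z => ?_)
    simp only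
    rw [hbb, Complex.norm_real, Real.norm_of_nonneg (by positivity)]
  have hfin : ∫ z, ‖b z‖ ^ 2 ≤ ε * ∫ z, ‖dzb χ z‖ := by
    have h1 : ((∫ z, ‖b z‖ ^ 2 : ℝ) : ℂ) = -∫ x, dzb χ x * (V x - conj c) := by
      rw [← hHint, ← hbI, ← integral_complex_ofReal]
      refine integral_congr_ae (ae_of_all _ fun z => ?_)
      exact (hbb z).symm
    have h2 : ∫ z, ‖b z‖ ^ 2 = ‖∫ x, dzb χ x * (V x - conj c)‖ := by
      rw [← norm_neg, ← h1, Complex.norm_real, Real.norm_of_nonneg]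
      exact integral_nonneg fun z => by positivity
    rw [h2]
    refine (norm_integral_le_integral_norm _).trans ?_
    rw [← integral_const_mul]
    have hdi : Integrable (fun x => dzb χ x) := by
      have h3 : (fun x => dzb χ x) = fun x => (fderiv ℝ χ x 1 + Complex.I *
          fderiv ℝ χ x Complex.I) / 2 := rfl
      rw [h3]
      exact ((hAi 1).add ((hAi Complex.I).const_mul Complex.I)).div_const 2
    refine integral_mono_of_nonneg (ae_of_all _ fun x => norm_nonneg _)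
      (hdi.norm.const_mul ε) (ae_of_all _ fun x => ?_)
    simp only
    rw [norm_mul, mul_comm]
    exact mul_le_mul_of_nonneg_right (hVc x) (norm_nonneg _)
  have hgo : ∫⁻ z, ‖b z‖ₑ ^ 2 = ENNReal.ofReal (∫ z, ‖b z‖ ^ 2) := by
    rw [ofReal_integral_eq_lintegral_ofReal hbr (ae_of_all _ fun z => by positivity)]
    refine lintegral_congr fun z => ?_
    rw [ENNReal.ofReal_pow (norm_nonneg _), ofReal_norm_eq_enorm]
  have hb' : ∀ z, ((P - C z * Q).roots.map fun x => χ x / deriv h x).sum = b z := fun z => by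
    rw [hbd]
  simp only [hb']
  rw [hgo]
  exact ENNReal.ofReal_le_ofReal hfin

theorem pf_BB (h1 : T_IT) (h2 : T_GRN) (h3 : T_UNI) (h4 : T_CP) (h5 : T_SIM) (h6 : T_ARE)
    (h7 : T_MEA) (h8 : T_CON) (h9 : T_INT) (h10 : T_DV) (h11 : T_IBP) : T_BB := by
  intro d hd g κ hg χ hχ hχc
  obtain ⟨G, hG⟩ := h2 d hd g
  obtain ⟨ρ, hρ, hU1, hUχ, -, hUL⟩ := h4 χ hχ hχc
  obtain ⟨C1, hC1, hu⟩ := h3 d hd g κ hg G hG ρ hρ
  refine ⟨C1 * ∫ z, ‖dzb χ z‖, mul_nonneg hC1 (integral_nonneg fun z => norm_nonneg _),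
    fun n => ?_⟩
  obtain ⟨hP, hQ, hm, hc, -⟩ := h1 d (by omega) g n
  have hd0 : (0 : ℝ) < d := by
    have : 0 < d := by omega
    exact_mod_cast this
  have hκ : 0 ≤ κ := by linarith [hg.1]
  have hdn : (0 : ℝ) < (d : ℝ) ^ n := by positivity
  have hv : ∀ z, ‖(((g.it n).1 - C z * (g.it n).2).roots.map (pot ρ)).sum -
      (d : ℂ) ^ n * ∫ w, (G w : ℂ) * ρ w‖ ≤ C1 * κ ^ n := by
    intro z
    have e1 := hu n z
    have hdc : ((d : ℂ) ^ n) ≠ 0 := by
      refine pow_ne_zero _ ?_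
      exact_mod_cast hd0.ne'
    have e2 : (((g.it n).1 - C z * (g.it n).2).roots.map (pot ρ)).sum -
        (d : ℂ) ^ n * ∫ w, (G w : ℂ) * ρ w = (d : ℂ) ^ n * (((d : ℂ) ^ n)⁻¹ *
          ((g.fib n z).roots.map (pot ρ)).sum - ∫ w, (G w : ℂ) * ρ w) := by
      rw [mul_sub, ← mul_assoc, mul_inv_cancel₀ hdc, one_mul]
      rfl
    rw [e2, norm_mul, norm_pow, Complex.norm_natCast]
    calc (d : ℝ) ^ n * ‖((d : ℂ) ^ n)⁻¹ * ((g.fib n z).roots.map (pot ρ)).sum -
          ∫ w, (G w : ℂ) * ρ w‖ ≤ (d : ℝ) ^ n * (C1 * (κ / d) ^ n) :=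
          mul_le_mul_of_nonneg_left e1 hdn.le
      _ = C1 * κ ^ n := by
          rw [div_pow]
          field_simp
  have key := core h5 h6 h7 h8 h9 h10 h11 (Nat.one_le_pow _ _ (by omega)) hc hP hQ hm χ hχ hχc
    (pot ρ) hU1 hUχ hUL _ (C1 * κ ^ n) (by positivity) hv
  have e3 : C1 * (∫ z, ‖dzb χ z‖) * κ ^ n = C1 * κ ^ n * ∫ z, ‖dzb χ z‖ := by ring
  rw [e3]
  exact key

end Pool.Agent.H35.UDA
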