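import Pool.Agent.H83.UE.Targets2
import Pool.Agent.H43.UDA.SIM

/-!
MP_75a732_an, board uda_modules, row NEG: images of Hausdorff null sets are negligible.
-/

set_option autoImplicit false

open Polynomial MeasureTheory Filter Topology Set
open scoped OnePoint ComplexConjugate ComplexOrder ENNReal Nat NNReal
open Pool.Agent.H83.UE

namespace Pool.Agent.H35.UDA.NEGx

/-- pieces on which a quotient is antilipschitz -/
theorem pieces {P Q : ℂ[X]} {D : ℕ} (hD : 1 ≤ D) (hc : IsCoprime P Q)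
    (hd : P.natDegree = D ∨ Q.natDegree = D) :
    ∃ (ι : Type) (_ : Countable ι) (S : ι → Set ℂ) (K : ι → ℝ≥0),
      (∀ x, Q.eval x ≠ 0 → ∃ i, x ∈ S i) ∧
      ∀ i, ∀ x ∈ S i, ∀ y ∈ S i,
        dist x y ≤ K i * dist (P.eval x / Q.eval x) (P.eval y / Q.eval y) := by
  classical
  have hW := Pool.Agent.H43.UDA.wronskian_ne hD hc hd
  obtain ⟨W, hWd⟩ : ∃ W : ℂ[X], W = derivative P * Q - P * derivative Q := ⟨_, rfl⟩
  rw [← hWd] at hW
  obtain ⟨c, hcd⟩ : ∃ c : ℂ → ℂ, c = fun x => W.eval x / Q.eval x ^ 2 := ⟨_, rfl⟩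
  have hder : ∀ x, Q.eval x ≠ 0 → HasDerivAt (fun y => P.eval y / Q.eval y) (c x) x := by
    intro x hx
    have h1 : HasDerivAt (fun y => P.eval y / Q.eval y)
      ((eval x (derivative P) * eval x Q - eval x P * eval x (derivative Q)) / eval x Q ^ 2) x :=
      (P.hasDerivAt x).div (Q.hasDerivAt x) hx
    have h2 : c x = (eval x (derivative P) * eval x Q - eval x P * eval x (derivative Q)) /
        eval x Q ^ 2 := by
      rw [hcd, hWd]
      simp only [eval_sub, eval_mul]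
    rw [h2]
    exact h1
  obtain ⟨T, A, -, hcov, happ, hA⟩ := exists_closed_cover_approximatesLinearOn_of_hasFDerivWithinAt
    (fun y => P.eval y / Q.eval y) {x : ℂ | Q.eval x ≠ 0 ∧ W.eval x ≠ 0}
    (fun x => (ContinuousLinearMap.toSpanSingleton ℂ (c x)).restrictScalars ℝ)
    (fun x hx => ((hder x hx.1).hasFDerivAt.restrictScalars ℝ).hasFDerivWithinAt)
    (fun A => if A 1 = 0 then 1 else ‖A 1‖₊ / 2) (fun A => by
      split_ifs with h
      · exact one_ne_zero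
      · exact (div_pos (nnnorm_pos.2 h) two_pos).ne')
  refine ⟨ℕ ⊕ {x // x ∈ W.roots.toFinset}, inferInstance,
    Sum.elim (fun n => {x : ℂ | Q.eval x ≠ 0 ∧ W.eval x ≠ 0} ∩ T n) (fun a => {a.1}),
    Sum.elim (fun n => 2 / ‖A n 1‖₊) (fun _ => 0), ?_, ?_⟩
  · intro x hx
    by_cases hw : W.eval x = 0
    · refine ⟨Sum.inr ⟨x, ?_⟩, rfl⟩
      rw [Multiset.mem_toFinset, mem_roots hW]
      exact hw
    · obtain ⟨n, hn⟩ := mem_iUnion.1 (hcov ⟨hx, hw⟩)
      exact ⟨Sum.inl n, ⟨hx, hw⟩, hn⟩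
  · rintro (n | a) x hx y hy
    · obtain ⟨y₀, hy₀, hAy⟩ := hA ⟨x, hx.1⟩ n
      have hc0 : c y₀ ≠ 0 := by
        rw [hcd]
        exact div_ne_zero hy₀.2 (pow_ne_zero 2 hy₀.1)
      have hA1 : A n 1 = c y₀ := by
        rw [hAy]
        simp
      have hAz : ∀ z : ℂ, ‖A n z‖ = ‖z‖ * ‖c y₀‖ := by
        intro z
        rw [hAy]
        simp
      have h1 := happ n x hx y hy
      have h2 : ((if A n 1 = 0 then 1 else ‖A n 1‖₊ / 2 : ℝ≥0) : ℝ) = ‖c y₀‖ / 2 := by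
        rw [hA1, if_neg hc0]
        push_cast
        rfl
      rw [h2] at h1
      simp only [Sum.elim_inl]
      rw [dist_eq_norm, dist_eq_norm, hA1]
      push_cast
      have h3 : 0 < ‖c y₀‖ := norm_pos_iff.2 hc0
      have h4 := hAz (x - y)
      have h5 : ‖A n (x - y)‖ ≤ ‖P.eval x / Q.eval x - P.eval y / Q.eval y‖ +
          ‖P.eval x / Q.eval x - P.eval y / Q.eval y - A n (x - y)‖ := by
        have h6 := norm_sub_le (P.eval x / Q.eval x - P.eval y / Q.eval y)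
          (P.eval x / Q.eval x - P.eval y / Q.eval y - A n (x - y))
        rw [sub_sub_cancel] at h6
        exact h6
      rw [div_mul_eq_mul_div, le_div_iff₀ h3]
      nlinarith
    · have h1 : x = a.1 := hx
      have h2 : y = a.1 := hy
      rw [h1, h2]
      simp

theorem hm_pre {k : ℕ} {s : ℝ} (hs : 0 ≤ s) (v : (Fin k → ℂ) → (Fin k → ℂ)) (K : ℝ≥0)
    (S N : Set (Fin k → ℂ)) (hv : ∀ x ∈ S, ∀ y ∈ S, dist x y ≤ K * dist (v x) (v y))
    (hN : Measure.hausdorffMeasure s N = 0) :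
    Measure.hausdorffMeasure s (S ∩ v ⁻¹' N) = 0 := by
  have h1 : AntilipschitzWith K (fun x : S => v x) :=
    AntilipschitzWith.of_le_mul_dist fun x y => hv x x.2 y y.2
  have h2 := h1.hausdorffMeasure_preimage_le hs N
  rw [hN, mul_zero] at h2
  have h3 : S ∩ v ⁻¹' N = Subtype.val '' ((fun x : S => v x) ⁻¹' N) := by
    ext x
    constructor
    · rintro ⟨h4, h5⟩
      exact ⟨⟨x, h4⟩, h5, rfl⟩
    · rintro ⟨y, h4, rfl⟩
      exact ⟨y.2, h4⟩
  rw [h3, isometry_subtype_coe.hausdorffMeasure_image (Or.inl hs)]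
  exact le_antisymm h2 bot_le

theorem hm_img {k m : ℕ} {s : ℝ} (hs : 0 ≤ s) (Φ : (Fin k → ℂ) → (Fin m → ℂ))
    (hΦ : Differentiable ℂ Φ) (S : Set (Fin k → ℂ)) (hS : Measure.hausdorffMeasure s S = 0) :
    Measure.hausdorffMeasure s (Φ '' S) = 0 := by
  obtain ⟨T, A, -, hcov, happ, -⟩ := exists_closed_cover_approximatesLinearOn_of_hasFDerivWithinAt
    Φ S (fun x => (fderiv ℂ Φ x).restrictScalars ℝ)
    (fun x _ => ((hΦ x).hasFDerivAt.restrictScalars ℝ).hasFDerivWithinAt) (fun _ => 1)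
    (fun _ => one_ne_zero)
  have h1 : Φ '' S ⊆ ⋃ n, Φ '' (S ∩ T n) := by
    rintro _ ⟨x, hx, rfl⟩
    obtain ⟨n, hn⟩ := mem_iUnion.1 (hcov hx)
    exact mem_iUnion.2 ⟨n, x, ⟨hx, hn⟩, rfl⟩
  refine measure_mono_null h1 (measure_iUnion_null fun n => ?_)
  have h2 : LipschitzOnWith (‖A n‖₊ + 1) Φ (S ∩ T n) := by
    refine LipschitzOnWith.of_dist_le_mul fun x hx y hy => ?_
    have h3 := happ n x hx y hy
    have h4 := (A n).le_opNorm (x - y)
    have h5 : ‖Φ x - Φ y‖ ≤ ‖Φ x - Φ y - A n (x - y)‖ + ‖A n (x - y)‖ := by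
      have h6 := norm_add_le (Φ x - Φ y - A n (x - y)) (A n (x - y))
      rw [sub_add_cancel] at h6
      exact h6
    rw [dist_eq_norm, dist_eq_norm]
    push_cast at h3 ⊢
    nlinarith
  have h3 := h2.hausdorffMeasure_image_le hs
  rw [measure_mono_null inter_subset_left hS, mul_zero] at h3
  exact le_antisymm h3 bot_le

end NEGx

open NEGx

theorem pf_NEG (h1 : T_IT) : T_NEG := by
  intro k m d hd g n Φ N hΦ hN
  obtain ⟨-, -, hm, hc, -⟩ := h1 d hd g n
  obtain ⟨ι, hι, S, K, hcov, hS⟩ := pieces (Nat.one_le_pow _ _ hd) hc hm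
  have hs : (0 : ℝ) ≤ 2 * m := by positivity
  have key : Measure.hausdorffMeasure (2 * m : ℝ)
      (Φ '' {x | RegT g n x ∧ valT g n x ∈ N}) = 0 := by
    have h2 : Φ '' {x | RegT g n x ∧ valT g n x ∈ N} ⊆
        ⋃ i : Fin k → ι, Φ '' ({x | ∀ l, x l ∈ S (i l)} ∩ valT g n ⁻¹' N) := by
      rintro _ ⟨x, ⟨hx, hxN⟩, rfl⟩
      have h3 : ∀ l, ∃ i, x l ∈ S i := fun l => hcov (x l) (hx l)
      choose i hi using h3
      exact mem_iUnion.2 ⟨i, x, ⟨hi, hxN⟩, rfl⟩
    refine measure_mono_null h2 (measure_iUnion_null fun i => hm_img hs Φ hΦ _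
      (hm_pre hs _ (Finset.univ.sup fun l => K (i l)) _ N ?_ hN))
    intro x hx y hy
    rw [dist_pi_le_iff (by positivity)]
    intro l
    refine (hS (i l) (x l) (hx l) (y l) (hy l)).trans ?_
    have h3 : K (i l) ≤ Finset.univ.sup fun l => K (i l) :=
      Finset.le_sup (f := fun l => K (i l)) (Finset.mem_univ l)
    have h4 : dist (valT g n x l) (valT g n y l) ≤ dist (valT g n x) (valT g n y) :=
      dist_le_pi_dist _ _ l
    exact mul_le_mul (by exact_mod_cast h3) h4 dist_nonneg (by positivity)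
  have hf : Module.finrank ℝ (Fin m → ℂ) = 2 * m := by
    rw [Module.finrank_pi_fintype]
    simp [Complex.finrank_real_complex, mul_comm]
  have hf' : (Module.finrank ℝ (Fin m → ℂ) : ℝ) = 2 * m := by
    rw [hf]
    push_cast
    rfl
  obtain ⟨c, hc3⟩ : ∃ c : ℝ≥0, (volume : Measure (Fin m → ℂ)) =
      c • (Measure.hausdorffMeasure (Module.finrank ℝ (Fin m → ℂ) : ℝ)) :=
    ⟨_, Measure.isAddLeftInvariant_eq_smul _ _⟩
  rw [hc3, Measure.smul_apply, hf', key]
  simp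

end Pool.Agent.H35.UDA
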